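import Pool.Agent.H740R3.Biorth

set_option autoImplicit false

/-!
# Fundamental biorthogonal sequences, and the pattern of the summands
-/

namespace Pool.Agent.X109.HU

open Filter Topology

universe u

theorem exists_biorth_inf (𝕜 : Type) [RCLike 𝕜] (X : Type u) [NormedAddCommGroup X]
    [NormedSpace 𝕜 X] [TopologicalSpace.SeparableSpace X] (hinf : ¬ FiniteDimensional 𝕜 X) :
    ∃ (e : ℕ → X) (g : ℕ → StrongDual 𝕜 X), (∀ i j, i ≠ j → g i (e j) = 0) ∧
      (∀ i, g i (e i) = 1) ∧ Dense (Submodule.span 𝕜 (Set.range e) : Set X) := by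
  classical
  obtain ⟨e, g, h1, h2, h3⟩ := Pool.Agent.H740R3.Biorth.exists_biorth 𝕜 X
  have hI : {i | e i ≠ 0}.Infinite := by
    intro hfin
    apply hinf
    have hle : Submodule.span 𝕜 (Set.range e) ≤ Submodule.span 𝕜 (e '' {i | e i ≠ 0}) := by
      rw [Submodule.span_le]
      rintro _ ⟨i, rfl⟩
      by_cases hi : e i = 0
      · rw [hi]
        exact Submodule.zero_mem _
      · exact Submodule.subset_span ⟨i, hi, rfl⟩
    haveI : FiniteDimensional 𝕜 (Submodule.span 𝕜 (e '' {i | e i ≠ 0})) :=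
      FiniteDimensional.span_of_finite 𝕜 (hfin.image e)
    have hclosed := Submodule.closed_of_finiteDimensional (Submodule.span 𝕜 (e '' {i | e i ≠ 0}))
    have hdense : Dense (Submodule.span 𝕜 (e '' {i | e i ≠ 0}) : Set X) := h3.mono hle
    have htop : Submodule.span 𝕜 (e '' {i | e i ≠ 0}) = ⊤ := by
      rw [← hclosed.submodule_topologicalClosure_eq]
      exact (Submodule.dense_iff_topologicalClosure_eq_top).1 hdense
    refine Module.finite_def.2 ?_
    rw [← htop]
    exact Submodule.fg_span (hfin.image e)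
  let φ : ℕ → ℕ := Nat.nth (fun i => e i ≠ 0)
  have hφ : Function.Injective φ := Nat.nth_injective hI
  have hφm : ∀ k, e (φ k) ≠ 0 := fun k => Nat.nth_mem_of_infinite hI k
  refine ⟨fun k => e (φ k), fun k => g (φ k), ?_, ?_, ?_⟩
  · intro i j hij
    exact h1 _ _ (fun h => hij (hφ h))
  · intro i
    rcases h2 (φ i) with h | h
    · exact h
    · exact absurd h.1 (hφm i)
  · refine h3.mono ?_
    change Submodule.span 𝕜 (Set.range e) ≤ Submodule.span 𝕜 (Set.range fun k => e (φ k))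
    rw [Submodule.span_le]
    rintro _ ⟨i, rfl⟩
    by_cases hi : e i = 0
    · rw [hi]
      exact Submodule.zero_mem _
    · refine Submodule.subset_span ⟨Nat.count (fun i => e i ≠ 0) i, ?_⟩
      simp only [φ]
      rw [Nat.nth_count hi]

/-- The summand containing the `j`-th vector. -/
def sg (j : ℕ) : ℕ := Nat.log 10 j - (j - 10 ^ Nat.log 10 j)

theorem log_eq {s i : ℕ} (h : 10 ^ s + i < 10 ^ (s + 1)) : Nat.log 10 (10 ^ s + i) = s := by
  rw [Nat.log_eq_iff]
  · exact ⟨Nat.le_add_right _ _, h⟩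
  · right
    have : 0 < 10 ^ s := by positivity
    exact ⟨by norm_num, by omega⟩

theorem sg_eq {s i : ℕ} (h : 10 ^ s + i < 10 ^ (s + 1)) : sg (10 ^ s + i) = s - i := by
  rw [sg, log_eq h]
  congr 1
  omega

theorem sg_zero : sg 0 = 0 := by
  simp [sg]

theorem lt_ten (s : ℕ) : s < 10 ^ s := Nat.lt_pow_self (by norm_num)

/-- Every positive number has the form `10 ^ s + i` with `10 ^ s + i < 10 ^ (s + 1)`. -/
theorem exists_block (j : ℕ) (hj : 0 < j) : ∃ s i, j = 10 ^ s + i ∧ 10 ^ s + i < 10 ^ (s + 1) := by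
  have h1 := Nat.pow_log_le_self 10 (x := j) (by omega)
  have h2 := Nat.lt_pow_succ_log_self (b := 10) (by norm_num) j
  refine ⟨Nat.log 10 j, j - 10 ^ Nat.log 10 j, by omega, ?_⟩
  rw [Nat.add_sub_cancel' h1]
  exact h2

theorem sg_le (j : ℕ) : sg j ≤ sg (j + 1) + 1 := by
  rcases Nat.eq_zero_or_pos j with rfl | hj
  · rw [sg_zero]
    omega
  · obtain ⟨s, i, rfl, h⟩ := exists_block j hj
    rw [sg_eq h]
    by_cases h2 : 10 ^ s + (i + 1) < 10 ^ (s + 1)
    · rw [add_assoc, sg_eq h2]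
      omega
    · have h3 : 10 ^ (s + 1) = 10 * 10 ^ s := by ring
      have := lt_ten s
      omega

theorem sg_infinite (n : ℕ) : {j | sg j = n}.Infinite := by
  rw [Set.infinite_iff_exists_gt]
  intro a
  let s := n + a + 1
  have h1 : 10 ^ s + (a + 1) < 10 ^ (s + 1) := by
    have h3 : 10 ^ (s + 1) = 10 * 10 ^ s := by ring
    have := lt_ten s
    omega
  refine ⟨10 ^ s + (a + 1), ?_, by omega⟩
  rw [Set.mem_ofPred_eq, sg_eq h1]
  omega

theorem sg_pat (L R0 : ℕ) : ∃ R ≥ R0, ∀ j, R < j → j ≤ 2 * (R + L) + 1 → sg j = 0 := by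
  let s := L + R0 + 1
  refine ⟨10 ^ s + s, ?_, ?_⟩
  · have : 0 < 10 ^ s := by positivity
    omega
  · intro j h1 h2
    have hj : j = 10 ^ s + (j - 10 ^ s) := by omega
    have h3 : 10 ^ (s + 1) = 10 * 10 ^ s := by ring
    have h4 := lt_ten s
    rw [hj, sg_eq]
    · omega
    · omega

/-- The index of the `j`-th vector inside its summand. -/
def kp (j : ℕ) : ℕ := Nat.count (fun i => sg i = sg j) j

theorem sk_inj {i j : ℕ} (h1 : sg i = sg j) (h2 : kp i = kp j) : i = j := by
  unfold kp at h2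
  rw [h1] at h2
  exact Nat.count_injective (p := fun l => sg l = sg j) h1 rfl h2

theorem sk_surj (n k : ℕ) : ∃ j, sg j = n ∧ kp j = k := by
  refine ⟨Nat.nth (fun i => sg i = n) k, ?_, ?_⟩
  · exact Nat.nth_mem_of_infinite (sg_infinite n) k
  · have h := Nat.nth_mem_of_infinite (sg_infinite n) k
    have h' : sg (Nat.nth (fun i => sg i = n) k) = n := h
    unfold kp
    rw [h']
    exact Nat.count_nth_of_infinite (sg_infinite n) k

end Pool.Agent.X109.HU
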