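import Pool.Agent.X109.HU.Lin

set_option autoImplicit false
set_option linter.unusedSectionVars false

/-!
# The abstract theorem
-/

namespace Pool.Agent.X109.HU

open Polynomial Filter Topology

variable {𝕜 : Type} [RCLike 𝕜]

theorem Dv_monomial_zero (a : 𝕜) : Dv 𝕜 (monomial 0 a) = 0 := by
  ext n
  rw [coeff_Dv, coeff_monomial, if_neg (by omega), coeff_zero]

theorem Dv_monomial_succ (k : ℕ) (a : 𝕜) : Dv 𝕜 (monomial (k + 1) a) = monomial k a := by
  ext n
  rw [coeff_Dv, coeff_monomial, coeff_monomial]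
  simp

section Phi

variable {V : Type*} [AddCommGroup V] [Module 𝕜 V]

/-- The linear map with `X ^ j ↦ b j`. -/
noncomputable def Phi (b : ℕ → V) : 𝕜[X] →ₗ[𝕜] V :=
  Polynomial.lsum fun n => (LinearMap.id : 𝕜 →ₗ[𝕜] 𝕜).smulRight (b n)

theorem Phi_monomial (b : ℕ → V) (k : ℕ) (a : 𝕜) : Phi b (monomial k a) = a • b k := by
  have h : Phi b (monomial k a) = (monomial k a).sum
    (fun n c => ((LinearMap.id : 𝕜 →ₗ[𝕜] 𝕜).smulRight (b n)) c) := rfl
  rw [h, sum_monomial_index]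
  · simp
  · simp

theorem Phi_eq_sum (b : ℕ → V) (s : Finset ℕ) (P : 𝕜[X]) (hP : ∀ k, k ∉ s → P.coeff k = 0) :
    Phi b P = ∑ j ∈ s, P.coeff j • b j := by
  have h1 : P = ∑ j ∈ s, monomial j (P.coeff j) := by
    ext l
    rw [finsetSum_coeff]
    simp only [coeff_monomial]
    by_cases hl : l ∈ s
    · rw [Finset.sum_eq_single l]
      · simp
      · intro j _ hj
        rw [if_neg hj]
      · intro h
        exact absurd hl h
    · rw [hP l hl]
      symm
      refine Finset.sum_eq_zero fun j hj => ?_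
      rw [if_neg]
      rintro rfl
      exact hl hj
  conv_lhs => rw [h1]
  rw [map_sum]
  exact Finset.sum_congr rfl fun j _ => Phi_monomial _ _ _

end Phi

section Main

variable {V : Type*} [AddCommGroup V] [Module 𝕜 V] [TopologicalSpace V] [IsTopologicalAddGroup V]
  [ContinuousSMul 𝕜 V]
variable {E : Type*} [NormedAddCommGroup E] [NormedSpace 𝕜 E]

theorem T_Phi (T : V →L[𝕜] V) (b : ℕ → V) (hb0 : T (b 0) = b 0)
    (hbs : ∀ j, T (b (j + 1)) = b (j + 1) + b j) (P : 𝕜[X]) :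
    T (Phi b P) = Phi b (Td 𝕜 P) := by
  induction P using Polynomial.induction_on' with
  | add p q hp hq => rw [map_add, map_add, hp, hq, map_add, map_add]
  | monomial n a =>
    rw [Td_apply, Phi_monomial, map_smul, map_add, Phi_monomial]
    cases n with
    | zero => rw [Dv_monomial_zero, map_zero, add_zero, hb0]
    | succ n => rw [Dv_monomial_succ, Phi_monomial, hbs, smul_add]

theorem T_pow_Phi (T : V →L[𝕜] V) (b : ℕ → V) (hb0 : T (b 0) = b 0)
    (hbs : ∀ j, T (b (j + 1)) = b (j + 1) + b j) (P : 𝕜[X]) (n : ℕ) :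
    (T ^ n) (Phi b P) = Phi b (((Td 𝕜) ^ n) P) := by
  induction n with
  | zero => simp
  | succ n ih =>
    rw [pow_succ', pow_succ', mul_apply_eq_comp, ih, T_Phi T b hb0 hbs,
      Module.End.mul_apply]

theorem step (ι : E →L[𝕜] V) (T : V →L[𝕜] V) (b : ℕ → V) (hb0 : T (b 0) = b 0)
    (hbs : ∀ j, T (b (j + 1)) = b (j + 1) + b j)
    (hpat : ∀ L R0 : ℕ, ∃ R ≥ R0, ∀ j, R < j → j ≤ 2 * (R + L) + 1 → b j ∈ Set.range ι)
    (B : Set ℕ) (hB : B.Infinite) (P Q : 𝕜[X]) (L : ℕ) (ε : ℝ) (hε : 0 < ε) :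
    ∃ n ∈ B, ∃ (Z : 𝕜[X]) (ζ : E), ι ζ = Phi b Z ∧ ‖ζ‖ < ε ∧
      (∃ η : E, ‖η‖ < ε ∧ (T ^ n) (Phi b (P + Z)) = Phi b Q + ι η) ∧
      ∀ a ≤ L, ∃ θ : E, ‖θ‖ < ε ∧ (T ^ a) (ι ζ) = ι θ := by
  classical
  obtain ⟨R, hR, hRb⟩ := hpat L (max P.natDegree Q.natDegree)
  have hRP : P.natDegree ≤ R := (le_max_left _ _).trans hR
  have hRQ : Q.natDegree ≤ R := (le_max_right _ _).trans hR
  obtain ⟨N, hN⟩ : ∃ N, N = R + L := ⟨_, rfl⟩
  rw [← hN] at hRb
  have hex : ∀ j, ∃ e : E, R < j → j ≤ 2 * N + 1 → ι e = b j := by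
    intro j
    by_cases h : R < j ∧ j ≤ 2 * N + 1
    · obtain ⟨e, he⟩ := hRb j h.1 h.2
      exact ⟨e, fun _ _ => he⟩
    · exact ⟨0, fun h1 h2 => absurd ⟨h1, h2⟩ h⟩
  choose e he using hex
  have hP : ∀ k, N < k → P.coeff k = 0 := fun k hk => coeff_eq_zero_of_natDegree_lt (by omega)
  have hQ : ∀ k, N < k → Q.coeff k = 0 := fun k hk => coeff_eq_zero_of_natDegree_lt (by omega)
  obtain ⟨c, hc0, hc1, hc2⟩ := solve N P Q hP
  let Psi : 𝕜[X] → E := fun Z => ∑ l ∈ Finset.Ioc R (2 * N + 1), Z.coeff l • e l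
  have hPsi : ∀ Z : 𝕜[X], (∀ l, l ≤ R → Z.coeff l = 0) → (∀ l, 2 * N + 1 < l → Z.coeff l = 0) →
      ι (Psi Z) = Phi b Z := by
    intro Z h1 h2
    rw [Phi_eq_sum b (Finset.Ioc R (2 * N + 1)) Z, map_sum]
    · refine Finset.sum_congr rfl fun l hl => ?_
      rw [Finset.mem_Ioc] at hl
      rw [map_smul, he l hl.1 hl.2]
    · intro k hk
      rw [Finset.mem_Ioc, not_and_or] at hk
      rcases hk with hk | hk
      · exact h1 k (by omega)
      · exact h2 k (by omega)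
  have hlim : ∀ (Z : ℕ → 𝕜[X]), (∀ l, R < l → Tendsto (fun n => (Z n).coeff l) atTop (𝓝 0)) →
      Tendsto (fun n => Psi (Z n)) atTop (𝓝 0) := by
    intro Z hZ
    have h1 : Tendsto (fun n => Psi (Z n)) atTop
        (𝓝 (∑ l ∈ Finset.Ioc R (2 * N + 1), (0 : 𝕜) • e l)) := by
      refine tendsto_finsetSum _ fun l hl => ?_
      rw [Finset.mem_Ioc] at hl
      exact (hZ l hl.1).smul_const _
    simpa using h1
  -- the powers of `T` on the small vector
  have hA : ∀ a, Tendsto (fun n => Psi (((Td 𝕜) ^ a) (Cp N (c n)))) atTop (𝓝 0) := by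
    intro a
    refine hlim _ fun l _ => ?_
    simp_rw [coeff_Td_pow_Cp]
    refine tendsto_sum_zero _ _ fun i _ => ?_
    split_ifs
    · have := (hc0 i).const_mul ((a.choose (N + 1 + (i : ℕ) - l) : ℕ) : 𝕜)
      rwa [mul_zero] at this
    · exact tendsto_const_nhds
  have hA1 : ∀ a ≤ L, ∀ n, ι (Psi (((Td 𝕜) ^ a) (Cp N (c n)))) = Phi b (((Td 𝕜) ^ a) (Cp N (c n))) := by
    intro a ha n
    refine hPsi _ ?_ ?_
    · intro l hl
      rw [coeff_Td_pow_Cp]
      refine Finset.sum_eq_zero fun i _ => ?_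
      rw [if_pos (by omega), Nat.choose_eq_zero_of_lt (by omega)]
      simp
    · intro l hl
      rw [coeff_Td_pow_Cp]
      refine Finset.sum_eq_zero fun i _ => ?_
      rw [if_neg]
      have := i.2
      omega
  -- the error at the target
  let W : ℕ → 𝕜[X] := fun n => ((Td 𝕜) ^ n) (P + Cp N (c n)) - Q
  have hW0 : ∀ᶠ n in atTop, ∀ l ≤ N, (W n).coeff l = 0 := by
    filter_upwards [hc1] with n hn
    intro l hl
    simp only [W]
    rw [coeff_sub, hn l hl, sub_self]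
  have hW1 : Tendsto (fun n => Psi (W n)) atTop (𝓝 0) := by
    refine hlim _ fun l hl => ?_
    by_cases hlN : l ≤ N
    · refine tendsto_const_nhds.congr' ?_
      filter_upwards [hW0] with n hn
      rw [hn l hlN]
    · have h1 := hc2 l (by omega)
      simp only [W, coeff_sub]
      rw [hQ l (by omega)]
      simpa using h1
  have hW2 : ∀ n l, 2 * N + 1 < l → (W n).coeff l = 0 := by
    intro n l hl
    simp only [W]
    rw [coeff_sub, hQ l (by omega), sub_zero, map_add, coeff_add, coeff_Td_pow_Cp,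
      coeff_Td_pow N n P hP]
    rw [Finset.sum_eq_zero, Finset.sum_eq_zero, add_zero]
    · intro i _
      rw [if_neg]
      have := i.2
      omega
    · intro j hj
      rw [Finset.mem_range] at hj
      rw [if_neg (by omega)]
  have hall : ∀ᶠ n in atTop, (∀ l ≤ N, (W n).coeff l = 0) ∧ ‖Psi (W n)‖ < ε ∧
      ∀ a ∈ Finset.range (L + 1), ‖Psi (((Td 𝕜) ^ a) (Cp N (c n)))‖ < ε := by
    refine hW0.and ((?_ : ∀ᶠ n in atTop, ‖Psi (W n)‖ < ε).and ?_)
    · have := (tendsto_zero_iff_norm_tendsto_zero.1 hW1)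
      exact this.eventually_lt_const hε
    · rw [Filter.eventually_all_finset]
      intro a _
      exact (tendsto_zero_iff_norm_tendsto_zero.1 (hA a)).eventually_lt_const hε
  obtain ⟨n, hnB, hn0, hn1, hn2⟩ := ((Nat.frequently_atTop_iff_infinite.2 hB).and_eventually hall).exists
  have hz : ι (Psi (Cp N (c n))) = Phi b (Cp N (c n)) := by
    have := hA1 0 (Nat.zero_le _) n
    simpa using this
  refine ⟨n, hnB, Cp N (c n), Psi (Cp N (c n)), hz, ?_, ⟨Psi (W n), hn1, ?_⟩, ?_⟩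
  · have := hn2 0 (by simp)
    simpa using this
  · rw [hPsi _ (fun l hl => hn0 l (by omega)) (hW2 n), T_pow_Phi T b hb0 hbs]
    simp only [W]
    rw [map_sub]
    abel
  · intro a ha
    refine ⟨Psi (((Td 𝕜) ^ a) (Cp N (c n))), hn2 a (by rw [Finset.mem_range]; omega), ?_⟩
    rw [hz, T_pow_Phi T b hb0 hbs, hA1 a ha n]

/-- A countable family of polynomials whose images meet every open set infinitely often. -/
theorem exists_targets (b : ℕ → V) (hdense : Dense (Submodule.span 𝕜 (Set.range b) : Set V)) :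
    ∃ Q : ℕ → 𝕜[X], ∀ W : Set V, IsOpen W → W.Nonempty → ∃ᶠ k in atTop, Phi b (Q k) ∈ W := by
  classical
  let q : ℕ → ℕ → 𝕜[X] := fun m i =>
    ∑ j : Fin m, monomial (j : ℕ) (TopologicalSpace.denseSeq (Fin m → 𝕜) i j)
  refine ⟨fun k => q (Nat.unpair (Nat.unpair k).2).1 (Nat.unpair (Nat.unpair k).2).2, ?_⟩
  intro W hW hWne
  obtain ⟨v, hvW, hvU⟩ := hdense.inter_open_nonempty W hW hWne
  -- `v` is a finite combination
  have hfin : ∃ (m : ℕ) (c : Fin m → 𝕜), v = ∑ j : Fin m, c j • b j := by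
    have hv : v ∈ Submodule.span 𝕜 (Set.range b) := hvU
    rw [Finsupp.mem_span_range_iff_exists_finsupp] at hv
    obtain ⟨c, hc⟩ := hv
    refine ⟨c.support.sup id + 1, fun j => c j, ?_⟩
    rw [← hc, Finsupp.sum, ← Finset.sum_range (fun j => c j • b j)]
    refine Finset.sum_subset ?_ ?_
    · intro j hj
      rw [Finset.mem_range]
      have := Finset.le_sup (f := id) hj
      simp only [id] at this
      omega
    · intro j _ hj
      rw [Finsupp.notMem_support_iff.1 hj, zero_smul]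
  obtain ⟨m, c, hv⟩ := hfin
  let g : (Fin m → 𝕜) → V := fun c => ∑ j : Fin m, c j • b j
  have hg : Continuous g := by
    refine continuous_finsetSum _ fun j _ => ?_
    exact (continuous_apply j).smul continuous_const
  have hopen : IsOpen (g ⁻¹' W) := hW.preimage hg
  have hne : (g ⁻¹' W).Nonempty := ⟨c, by
    change g c ∈ W
    have : g c = v := hv.symm
    rw [this]
    exact hvW⟩
  obtain ⟨y, hy1, hy2⟩ := (TopologicalSpace.denseRange_denseSeq (Fin m → 𝕜)).inter_open_nonempty _ hopen hne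
  obtain ⟨i, rfl⟩ := hy2
  rw [Filter.frequently_atTop]
  intro r
  refine ⟨Nat.pair r (Nat.pair m i), Nat.left_le_pair _ _, ?_⟩
  simp only [Nat.unpair_pair, q]
  rw [map_sum]
  simp_rw [Phi_monomial]
  exact hy1

theorem core [T2Space V] [CompleteSpace E] (ι : E →L[𝕜] V) (T : V →L[𝕜] V) (b : ℕ → V)
    (hb0 : T (b 0) = b 0) (hbs : ∀ j, T (b (j + 1)) = b (j + 1) + b j)
    (hdense : Dense (Submodule.span 𝕜 (Set.range b) : Set V))
    (hpat : ∀ L R0 : ℕ, ∃ R ≥ R0, ∀ j, R < j → j ≤ 2 * (R + L) + 1 → b j ∈ Set.range ι)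
    (B : Set ℕ) (hB : B.Infinite) :
    ∃ x : V, Dense {y : V | ∃ n ∈ B, y = (T ^ n) x} := by
  classical
  obtain ⟨Q, hQ⟩ := exists_targets (𝕜 := 𝕜) b hdense
  have hstep : ∀ (P Q : 𝕜[X]) (L k : ℕ), ∃ n ∈ B, ∃ (Z : 𝕜[X]) (ζ : E), ι ζ = Phi b Z ∧
      ‖ζ‖ < (1 / 2 : ℝ) ^ k ∧
      (∃ η : E, ‖η‖ < (1 / 2 : ℝ) ^ k ∧ (T ^ n) (Phi b (P + Z)) = Phi b Q + ι η) ∧
      ∀ a ≤ L, ∃ θ : E, ‖θ‖ < (1 / 2 : ℝ) ^ k ∧ (T ^ a) (ι ζ) = ι θ := fun P Q L k =>
    step ι T b hb0 hbs hpat B hB P Q L _ (by positivity)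
  choose n hnB Z ζ hζ1 hζ2 hη hθ using hstep
  choose η hη1 hη2 using hη
  let s : ℕ → 𝕜[X] × ℕ := fun k => Nat.rec (0, 0)
    (fun k s => (s.1 + Z s.1 (Q k) s.2 k, max s.2 (n s.1 (Q k) s.2 k))) k
  have hs : ∀ k, s (k + 1) = ((s k).1 + Z (s k).1 (Q k) (s k).2 k,
    max (s k).2 (n (s k).1 (Q k) (s k).2 k)) := fun k => rfl
  let nk : ℕ → ℕ := fun k => n (s k).1 (Q k) (s k).2 k
  let zk : ℕ → E := fun k => ζ (s k).1 (Q k) (s k).2 k
  let ek : ℕ → E := fun k => η (s k).1 (Q k) (s k).2 k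
  have hL : ∀ k i, k < i → nk k ≤ (s i).2 := by
    intro k i hki
    induction i with
    | zero => omega
    | succ i ih =>
      rw [hs]
      rcases Nat.lt_succ_iff_lt_or_eq.1 hki with h | h
      · exact (ih h).trans (le_max_left _ _)
      · subst h
        exact le_max_right _ _
  have hPhi : ∀ k, Phi b (s k).1 = ι (∑ i ∈ Finset.range k, zk i) := by
    intro k
    induction k with
    | zero => simp [s]
    | succ k ih =>
      rw [hs, map_add, ih, Finset.sum_range_succ, map_add]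
      congr 1
      exact (hζ1 _ _ _ _).symm
  have hznorm : ∀ k, ‖zk k‖ ≤ (1 / 2 : ℝ) ^ k := fun k => (hζ2 _ _ _ _).le
  have hgeo : Summable fun k : ℕ => (1 / 2 : ℝ) ^ k :=
    summable_geometric_of_lt_one (by norm_num) (by norm_num)
  have hzsum : Summable zk := Summable.of_norm_bounded hgeo hznorm
  have htheta : ∀ k i, ∃ θ : E, ‖θ‖ ≤ (1 / 2 : ℝ) ^ (i + (k + 1)) ∧
      (T ^ nk k) (ι (zk (i + (k + 1)))) = ι θ := by
    intro k i
    obtain ⟨θ, h1, h2⟩ := hθ (s (i + (k + 1))).1 (Q (i + (k + 1))) (s (i + (k + 1))).2 (i + (k + 1))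
      (nk k) (hL k (i + (k + 1)) (by omega))
    exact ⟨θ, h1.le, h2⟩
  choose th hth1 hth2 using htheta
  have hgeo2 : ∀ k : ℕ, HasSum (fun i : ℕ => (1 / 2 : ℝ) ^ (i + (k + 1))) ((1 / 2 : ℝ) ^ k) := by
    intro k
    have h1 := (hasSum_geometric_of_lt_one (r := (1 / 2 : ℝ)) (by norm_num) (by norm_num)).mul_right
      ((1 / 2 : ℝ) ^ (k + 1))
    have h2 : (1 - 1 / 2 : ℝ)⁻¹ * (1 / 2 : ℝ) ^ (k + 1) = (1 / 2 : ℝ) ^ k := by
      rw [pow_succ]
      ring
    rw [h2] at h1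
    refine h1.congr_fun ?_
    intro i
    rw [pow_add]
  have hthsum : ∀ k, Summable (th k) := fun k =>
    Summable.of_norm_bounded (hgeo2 k).summable (hth1 k)
  have hthnorm : ∀ k, ‖∑' i, th k i‖ ≤ (1 / 2 : ℝ) ^ k := fun k =>
    tsum_of_norm_bounded (hgeo2 k) (hth1 k)
  let err : ℕ → E := fun k => ek k + ∑' i, th k i
  have herr : ∀ k, ‖err k‖ ≤ 2 * (1 / 2 : ℝ) ^ k := by
    intro k
    refine (norm_add_le _ _).trans ?_
    have h1 : ‖ek k‖ < (1 / 2 : ℝ) ^ k := hη1 _ _ _ _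
    have h2 := hthnorm k
    linarith
  have herr0 : Tendsto err atTop (𝓝 0) := by
    refine squeeze_zero_norm herr ?_
    have := (tendsto_pow_atTop_nhds_zero_of_lt_one (r := (1 / 2 : ℝ)) (by norm_num)
      (by norm_num)).const_mul 2
    rwa [mul_zero] at this
  refine ⟨ι (∑' i, zk i), ?_⟩
  have hkey : ∀ k, (T ^ nk k) (ι (∑' i, zk i)) = Phi b (Q k) + ι (err k) := by
    intro k
    rw [← hzsum.sum_add_tsum_nat_add (k + 1), map_add, map_add, ← hPhi (k + 1)]
    have h1 : (T ^ nk k) (Phi b (s (k + 1)).1) = Phi b (Q k) + ι (ek k) := by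
      rw [hs]
      exact hη2 _ _ _ _
    have hsum2 : Summable fun i => zk (i + (k + 1)) := (summable_nat_add_iff (k + 1)).2 hzsum
    have h2 : (T ^ nk k) (ι (∑' i, zk (i + (k + 1)))) = ι (∑' i, th k i) := by
      have h3 := ((T ^ nk k).comp ι).map_tsum hsum2
      simp only [ContinuousLinearMap.comp_apply] at h3
      rw [h3, ι.map_tsum (hthsum k)]
      exact tsum_congr fun i => hth2 k i
    rw [h1, h2]
    simp only [err]
    rw [map_add, add_assoc]
  intro v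
  rw [mem_closure_iff]
  intro W hW hvW
  -- a smaller open set
  have hadd : Tendsto (fun p : V × V => p.1 + p.2) (𝓝 (v, 0)) (𝓝 v) := by
    have := (continuous_add (M := V)).tendsto (v, 0)
    simpa using this
  have h1 := hadd (hW.mem_nhds hvW)
  rw [nhds_prod_eq, Filter.mem_map] at h1
  obtain ⟨W1, hW1, W2, hW2, hsub⟩ := Filter.mem_prod_iff.1 h1
  obtain ⟨W1', hW1'sub, hW1'open, hvW1'⟩ := mem_nhds_iff.1 hW1
  have hf := hQ W1' hW1'open ⟨v, hvW1'⟩
  have he : ∀ᶠ k in atTop, ι (err k) ∈ W2 := by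
    have := (ι.continuous.tendsto 0).comp herr0
    rw [map_zero] at this
    exact this hW2
  obtain ⟨k, hk1, hk2⟩ := (hf.and_eventually he).exists
  refine ⟨(T ^ nk k) (ι (∑' i, zk i)), ?_, nk k, hnB _ _ _ _, rfl⟩
  rw [hkey]
  exact hsub (Set.mk_mem_prod (hW1'sub hk1) hk2)

end Main

end Pool.Agent.X109.HU
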