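import Mathlib

set_option autoImplicit false

/-!
# A linear system with binomial coefficients
-/

namespace Pool.Agent.X109.HU

open Polynomial Filter Topology

variable {𝕜 : Type} [RCLike 𝕜]

/-- The limit matrix `1 / (N + 1 + i - l)!`. -/
noncomputable def Minf (𝕜 : Type) [RCLike 𝕜] (N : ℕ) : Matrix (Fin (N + 1)) (Fin (N + 1)) 𝕜 :=
  fun l i => (((N + 1 + (i : ℕ) - (l : ℕ)).factorial : ℕ) : 𝕜)⁻¹

theorem det_Minf (N : ℕ) : (Minf 𝕜 N).det ≠ 0 := by
  classical
  intro hdet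
  obtain ⟨d, hd0, hd⟩ := Matrix.exists_mulVec_eq_zero_iff.2 hdet
  have hsys : ∀ l : Fin (N + 1),
      ∑ i : Fin (N + 1), (((N + 1 + (i : ℕ) - (l : ℕ)).factorial : ℕ) : 𝕜)⁻¹ * d i = 0 := by
    intro l
    have := congrFun hd l
    simpa [Matrix.mulVec, dotProduct, Minf] using this
  let c : Fin (N + 1) → 𝕜 := fun i => d i * (((N + 1 + (i : ℕ)).factorial : ℕ) : 𝕜)⁻¹
  let q : 𝕜[X] := ∑ i : Fin (N + 1), C (c i) * X ^ (N + 1 + (i : ℕ))
  have hfac : ∀ k : ℕ, ((k.factorial : ℕ) : 𝕜) ≠ 0 := fun k =>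
    Nat.cast_ne_zero.2 (Nat.factorial_ne_zero k)
  have hcoeff : ∀ i : Fin (N + 1), q.coeff (N + 1 + (i : ℕ)) = c i := by
    intro i
    simp only [q, finsetSum_coeff, coeff_C_mul, coeff_X_pow]
    rw [Finset.sum_eq_single i]
    · simp
    · intro b _ hb
      have : ¬ (N + 1 + (i : ℕ) = N + 1 + (b : ℕ)) := by
        intro h
        apply hb
        ext
        omega
      rw [if_neg this, mul_zero]
    · intro h
      exact absurd (Finset.mem_univ i) h
  have hroot : ∀ l ≤ N, (derivative^[l] q).IsRoot 1 := by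
    intro l hl
    have hs := hsys ⟨l, by omega⟩
    rw [IsRoot, iterate_derivative_sum, eval_finsetSum]
    rw [← hs]
    refine Finset.sum_congr rfl fun i _ => ?_
    rw [iterate_derivative_C_mul, iterate_derivative_X_pow_eq_smul]
    simp only [c, eval_mul, eval_C, eval_smul, eval_pow, eval_X, one_pow, smul_eq_mul, mul_one]
    have h1 := Nat.factorial_mul_descFactorial (n := N + 1 + (i : ℕ)) (k := l) (by omega)
    have h2 : (((N + 1 + (i : ℕ) - l).factorial : ℕ) : 𝕜) *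
        (((N + 1 + (i : ℕ)).descFactorial l : ℕ) : 𝕜) = (((N + 1 + (i : ℕ)).factorial : ℕ) : 𝕜) := by
      rw [← Nat.cast_mul, h1]
    have h3 := hfac (N + 1 + (i : ℕ) - l)
    have h4 := hfac (N + 1 + (i : ℕ))
    field_simp
    rw [← h2]
    ring
  by_cases hq : q = 0
  · apply hd0
    ext i
    have h1 := hcoeff i
    rw [hq, coeff_zero] at h1
    have h2 : d i * (((N + 1 + (i : ℕ)).factorial : ℕ) : 𝕜)⁻¹ = 0 := h1.symm
    exact (mul_eq_zero.1 h2).resolve_right (inv_ne_zero (hfac _))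
  · have hlt : N < q.rootMultiplicity 1 :=
      (lt_rootMultiplicity_iff_isRoot_iterate_derivative hq).2 hroot
    have hdiv1 : (X - C (1 : 𝕜)) ^ (N + 1) ∣ q :=
      (pow_dvd_pow _ hlt).trans (pow_rootMultiplicity_dvd q 1)
    have hdiv2 : (X : 𝕜[X]) ^ (N + 1) ∣ q := by
      refine Finset.dvd_sum fun i _ => ?_
      refine Dvd.dvd.mul_left ?_ _
      exact pow_dvd_pow _ (by omega)
    have hcop : IsCoprime ((X - C (1 : 𝕜)) ^ (N + 1)) ((X : 𝕜[X]) ^ (N + 1)) := by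
      refine IsCoprime.pow ?_
      have := isCoprime_X_sub_C_of_isUnit_sub (a := (1 : 𝕜)) (b := 0) (by simp)
      simpa using this
    have hdiv := hcop.mul_dvd hdiv1 hdiv2
    have hdeg := natDegree_le_of_dvd hdiv hq
    have h1 : ((X - C (1 : 𝕜)) ^ (N + 1) * (X : 𝕜[X]) ^ (N + 1)).natDegree = 2 * N + 2 := by
      rw [natDegree_mul (pow_ne_zero _ (X_sub_C_ne_zero 1)) (pow_ne_zero _ X_ne_zero),
        natDegree_pow, natDegree_pow, natDegree_X_sub_C, natDegree_X]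
      ring
    have h2 : q.natDegree ≤ 2 * N + 1 := by
      refine natDegree_sum_le_of_forall_le _ _ fun i _ => ?_
      refine (natDegree_C_mul_X_pow_le _ _).trans ?_
      have := i.2
      omega
    omega

/-- Normalised binomial coefficients converge to reciprocals of factorials. -/
theorem tendsto_choose (k : ℕ) : Tendsto (fun n : ℕ => ((n.choose k : ℕ) : 𝕜) * ((n : 𝕜)⁻¹) ^ k)
    atTop (𝓝 (((k.factorial : ℕ) : 𝕜)⁻¹)) := by
  induction k with
  | zero => simp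
  | succ k ih =>
    have h1 : Tendsto (fun n : ℕ => ((n : 𝕜))⁻¹) atTop (𝓝 0) := by
      have := tendsto_inv_atTop_nhds_zero_nat (𝕜 := ℝ)
      have h2 := (RCLike.continuous_ofReal (K := 𝕜)).tendsto 0 |>.comp this
      simpa [Function.comp_def] using h2
    have h2 : Tendsto (fun n : ℕ => (((n.choose k : ℕ) : 𝕜) * ((n : 𝕜)⁻¹) ^ k) *
        ((1 - (k : 𝕜) * (n : 𝕜)⁻¹) * ((k : 𝕜) + 1)⁻¹)) atTop
        (𝓝 ((((k.factorial : ℕ) : 𝕜)⁻¹) * ((1 - (k : 𝕜) * 0) * ((k : 𝕜) + 1)⁻¹))) := by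
      refine ih.mul ?_
      refine Tendsto.mul_const _ ?_
      exact tendsto_const_nhds.sub (h1.const_mul _)
    have h3 : (((k.factorial : ℕ) : 𝕜)⁻¹) * ((1 - (k : 𝕜) * 0) * ((k : 𝕜) + 1)⁻¹)
        = ((((k + 1).factorial : ℕ) : 𝕜)⁻¹) := by
      rw [Nat.factorial_succ]
      push_cast
      rw [mul_zero, sub_zero, one_mul, mul_inv, mul_comm]
    rw [h3] at h2
    refine h2.congr' ?_
    filter_upwards [eventually_ge_atTop (k + 1)] with n hn
    have hn0 : (n : 𝕜) ≠ 0 := Nat.cast_ne_zero.2 (by omega)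
    have hk0 : (k : 𝕜) + 1 ≠ 0 := by
      have := Nat.cast_ne_zero (R := 𝕜).2 (Nat.succ_ne_zero k)
      simpa using this
    have h4 : ((n.choose (k + 1) : ℕ) : 𝕜) * ((k : 𝕜) + 1) = ((n.choose k : ℕ) : 𝕜) * ((n : 𝕜) - k) := by
      have := Nat.choose_succ_right_eq n k
      have h5 : ((n.choose (k + 1) * (k + 1) : ℕ) : 𝕜) = ((n.choose k * (n - k) : ℕ) : 𝕜) := by
        rw [this]
      rw [Nat.cast_mul, Nat.cast_mul, Nat.cast_sub (by omega)] at h5
      push_cast at h5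
      exact h5
    have h6 : ((n.choose (k + 1) : ℕ) : 𝕜) = ((n.choose k : ℕ) : 𝕜) * ((n : 𝕜) - k) * ((k : 𝕜) + 1)⁻¹ := by
      rw [← h4]
      field_simp
    rw [h6, pow_succ]
    field_simp

/-- The backward shift of polynomials. -/
noncomputable def Dv (𝕜 : Type) [RCLike 𝕜] : 𝕜[X] →ₗ[𝕜] 𝕜[X] where
  toFun p := p.divX
  map_add' := fun _ _ => divX_add
  map_smul' := fun c p => by
    ext n
    simp [coeff_divX]

theorem coeff_Dv (p : 𝕜[X]) (n : ℕ) : (Dv 𝕜 p).coeff n = p.coeff (n + 1) := coeff_divX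

/-- The identity plus the backward shift. -/
noncomputable def Td (𝕜 : Type) [RCLike 𝕜] : Module.End 𝕜 𝕜[X] := 1 + Dv 𝕜

theorem Td_apply (p : 𝕜[X]) : Td 𝕜 p = p + Dv 𝕜 p := rfl

theorem coeff_Td_pow_monomial (n K : ℕ) (a : 𝕜) (l : ℕ) :
    (((Td 𝕜) ^ n) (monomial K a)).coeff l = if l ≤ K then ((n.choose (K - l) : ℕ) : 𝕜) * a else 0 := by
  induction n generalizing l with
  | zero =>
    rw [pow_zero, Module.End.one_apply, coeff_monomial]
    by_cases h : K = l
    · subst h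
      simp
    · rw [if_neg h]
      by_cases h2 : l ≤ K
      · rw [if_pos h2, Nat.choose_eq_zero_of_lt (by omega)]
        simp
      · rw [if_neg h2]
  | succ n ih =>
    rw [pow_succ', Module.End.mul_apply, Td_apply, coeff_add, coeff_Dv, ih, ih]
    by_cases h : l + 1 ≤ K
    · rw [if_pos (by omega), if_pos h, if_pos (by omega)]
      have : K - l = (K - (l + 1)) + 1 := by omega
      rw [this, Nat.choose_succ_succ]
      push_cast
      ring
    · rw [if_neg h, add_zero]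
      by_cases h2 : l ≤ K
      · rw [if_pos h2, if_pos h2]
        have : K - l = 0 := by omega
        rw [this]
        simp
      · rw [if_neg h2, if_neg h2]

/-- The polynomial with coefficients `c i` at the places `N + 1 + i`. -/
noncomputable def Cp (N : ℕ) (c : Fin (N + 1) → 𝕜) : 𝕜[X] :=
  ∑ i : Fin (N + 1), monomial (N + 1 + (i : ℕ)) (c i)

theorem coeff_Td_pow_Cp (N n : ℕ) (c : Fin (N + 1) → 𝕜) (l : ℕ) :
    (((Td 𝕜) ^ n) (Cp N c)).coeff l =
      ∑ i : Fin (N + 1), if l ≤ N + 1 + (i : ℕ) then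
        ((n.choose (N + 1 + (i : ℕ) - l) : ℕ) : 𝕜) * c i else 0 := by
  rw [Cp, map_sum, finsetSum_coeff]
  exact Finset.sum_congr rfl fun i _ => coeff_Td_pow_monomial _ _ _ _

theorem coeff_Td_pow (N n : ℕ) (P : 𝕜[X]) (hP : ∀ k, N < k → P.coeff k = 0) (l : ℕ) :
    (((Td 𝕜) ^ n) P).coeff l =
      ∑ j ∈ Finset.range (N + 1), if l ≤ j then
        ((n.choose (j - l) : ℕ) : 𝕜) * P.coeff j else 0 := by
  have h : P = ∑ j ∈ Finset.range (N + 1), monomial j (P.coeff j) := by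
    refine as_sum_range' P (N + 1) ?_
    exact Nat.lt_succ_of_le (natDegree_le_iff_coeff_eq_zero.2 hP)
  conv_lhs => rw [h]
  rw [map_sum, finsetSum_coeff]
  exact Finset.sum_congr rfl fun i _ => coeff_Td_pow_monomial _ _ _ _

theorem tendsto_inv_nat : Tendsto (fun n : ℕ => ((n : 𝕜))⁻¹) atTop (𝓝 0) := by
  have := tendsto_inv_atTop_nhds_zero_nat (𝕜 := ℝ)
  have h2 := (RCLike.continuous_ofReal (K := 𝕜)).tendsto 0 |>.comp this
  simpa [Function.comp_def] using h2

theorem tendsto_sum_zero {ι : Type} (s : Finset ι) (f : ℕ → ι → 𝕜)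
    (h : ∀ i ∈ s, Tendsto (fun n => f n i) atTop (𝓝 0)) :
    Tendsto (fun n => ∑ i ∈ s, f n i) atTop (𝓝 0) := by
  have h1 : Tendsto (fun n => ∑ i ∈ s, f n i) atTop (𝓝 (∑ i ∈ s, (0 : 𝕜))) :=
    tendsto_finsetSum _ h
  rwa [Finset.sum_const_zero] at h1

/-- The solution of the binomial system. -/
theorem solve (N : ℕ) (P Q : 𝕜[X]) (hP : ∀ k, N < k → P.coeff k = 0) :
    ∃ c : ℕ → Fin (N + 1) → 𝕜, (∀ i, Tendsto (fun n => c n i) atTop (𝓝 0)) ∧
      (∀ᶠ n in atTop, ∀ l ≤ N, (((Td 𝕜) ^ n) (P + Cp N (c n))).coeff l = Q.coeff l) ∧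
      (∀ l, N < l → Tendsto (fun n => (((Td 𝕜) ^ n) (P + Cp N (c n))).coeff l) atTop (𝓝 0)) := by
  classical
  let M : ℕ → Matrix (Fin (N + 1)) (Fin (N + 1)) 𝕜 := fun n l i =>
    ((n.choose (N + 1 + (i : ℕ) - (l : ℕ)) : ℕ) : 𝕜) * ((n : 𝕜)⁻¹) ^ (N + 1 + (i : ℕ) - (l : ℕ))
  have hM : Tendsto M atTop (𝓝 (Minf 𝕜 N)) := by
    refine tendsto_pi_nhds.2 fun l => tendsto_pi_nhds.2 fun i => ?_
    exact tendsto_choose _
  have hdet : Tendsto (fun n => (M n).det) atTop (𝓝 (Minf 𝕜 N).det) :=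
    ((continuous_id.matrix_det).tendsto _).comp hM
  have hadj : Tendsto (fun n => (M n).adjugate) atTop (𝓝 (Minf 𝕜 N).adjugate) :=
    ((continuous_id.matrix_adjugate).tendsto _).comp hM
  have hdet0 : ∀ᶠ n in atTop, (M n).det ≠ 0 := hdet.eventually_ne (det_Minf N)
  let τ : ℕ → ℕ → 𝕜 := fun n l => Q.coeff l - (((Td 𝕜) ^ n) P).coeff l
  let s : ℕ → Fin (N + 1) → 𝕜 := fun n l => ((n : 𝕜)⁻¹) ^ (N + 1 - (l : ℕ)) * τ n l
  have hs : Tendsto s atTop (𝓝 0) := by
    refine tendsto_pi_nhds.2 fun l => ?_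
    have h1 : Tendsto (fun n : ℕ => ((n : 𝕜)⁻¹) ^ (N + 1 - (l : ℕ)) * Q.coeff l) atTop (𝓝 0) := by
      have h := (tendsto_inv_nat (𝕜 := 𝕜)).pow (N + 1 - (l : ℕ))
      have h2 := h.mul_const (Q.coeff l)
      rwa [zero_pow (by have := l.2; omega), zero_mul] at h2
    have h2 : Tendsto (fun n : ℕ => ((n : 𝕜)⁻¹) ^ (N + 1 - (l : ℕ)) * (((Td 𝕜) ^ n) P).coeff l)
        atTop (𝓝 0) := by
      have h3 : ∀ n : ℕ, ((n : 𝕜)⁻¹) ^ (N + 1 - (l : ℕ)) * (((Td 𝕜) ^ n) P).coeff l =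
          ∑ j ∈ Finset.range (N + 1), if (l : ℕ) ≤ j then
            (((n.choose (j - l) : ℕ) : 𝕜) * ((n : 𝕜)⁻¹) ^ (j - (l : ℕ))) *
              (((n : 𝕜)⁻¹) ^ (N + 1 - j) * P.coeff j) else 0 := by
        intro n
        rw [coeff_Td_pow N n P hP, Finset.mul_sum]
        refine Finset.sum_congr rfl fun j hj => ?_
        have hj' := Finset.mem_range.1 hj
        split_ifs with hlj
        · have : N + 1 - (l : ℕ) = (j - l) + (N + 1 - j) := by omega
          rw [this, pow_add]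
          ring
        · rw [mul_zero]
      simp_rw [h3]
      refine tendsto_sum_zero _ _ fun j hj => ?_
      have hj' := Finset.mem_range.1 hj
      split_ifs with hlj
      · have h4 := (tendsto_inv_nat (𝕜 := 𝕜)).pow (N + 1 - j)
        have h5 := h4.mul_const (P.coeff j)
        rw [zero_pow (by omega), zero_mul] at h5
        have h6 := (tendsto_choose (𝕜 := 𝕜) (j - l)).mul h5
        rwa [mul_zero] at h6
      · exact tendsto_const_nhds
    have h3 := h1.sub h2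
    rw [sub_zero] at h3
    refine h3.congr fun n => ?_
    simp only [s, τ]
    ring
  let d : ℕ → Fin (N + 1) → 𝕜 := fun n => (M n).det⁻¹ • ((M n).adjugate.mulVec (s n))
  have hd : Tendsto d atTop (𝓝 0) := by
    have h1 := hdet.inv₀ (det_Minf N)
    have h2 : Tendsto (fun n => (M n).adjugate.mulVec (s n)) atTop
        (𝓝 ((Minf 𝕜 N).adjugate.mulVec 0)) := by
      refine tendsto_pi_nhds.2 fun i => ?_
      simp only [Matrix.mulVec, dotProduct]
      refine tendsto_finsetSum _ fun j _ => ?_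
      exact ((tendsto_pi_nhds.1 ((tendsto_pi_nhds.1 hadj) i)) j).mul ((tendsto_pi_nhds.1 hs) j)
    rw [Matrix.mulVec_zero] at h2
    have h3 := h1.smul h2
    rwa [smul_zero] at h3
  have hsolve : ∀ᶠ n in atTop, (M n).mulVec (d n) = s n := by
    filter_upwards [hdet0] with n hn
    simp only [d]
    rw [Matrix.mulVec_smul, Matrix.mulVec_mulVec, Matrix.mul_adjugate, Matrix.smul_mulVec,
      Matrix.one_mulVec, smul_smul, inv_mul_cancel₀ hn, one_smul]
  let c : ℕ → Fin (N + 1) → 𝕜 := fun n i => ((n : 𝕜)⁻¹) ^ (i : ℕ) * d n i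
  refine ⟨c, fun i => ?_, ?_, fun l hl => ?_⟩
  · have h1 := (tendsto_inv_nat (𝕜 := 𝕜)).pow (i : ℕ)
    have h2 := h1.mul ((tendsto_pi_nhds.1 hd) i)
    rwa [Pi.zero_apply, mul_zero] at h2
  · filter_upwards [hsolve, eventually_ge_atTop 1] with n hn hn1
    intro l hl
    have hn0 : (n : 𝕜) ≠ 0 := Nat.cast_ne_zero.2 (by omega)
    rw [map_add, coeff_add, coeff_Td_pow_Cp]
    have h1 := congrFun hn ⟨l, by omega⟩
    simp only [Matrix.mulVec, dotProduct, M, s, τ] at h1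
    have h2 : ∑ i : Fin (N + 1), (if l ≤ N + 1 + (i : ℕ) then
        ((n.choose (N + 1 + (i : ℕ) - l) : ℕ) : 𝕜) * c n i else 0) =
        Q.coeff l - (((Td 𝕜) ^ n) P).coeff l := by
      have h3 : ((n : 𝕜)⁻¹) ^ (N + 1 - l) ≠ 0 := pow_ne_zero _ (inv_ne_zero hn0)
      apply mul_left_cancel₀ h3
      rw [← h1, Finset.mul_sum]
      refine Finset.sum_congr rfl fun i _ => ?_
      rw [if_pos (by omega)]
      have h4 : N + 1 + (i : ℕ) - l = (N + 1 - l) + (i : ℕ) := by omega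
      simp only [c]
      rw [h4, pow_add]
      ring
    rw [h2]
    ring
  · have h1 : ∀ n : ℕ, (((Td 𝕜) ^ n) (P + Cp N (c n))).coeff l =
        ∑ i : Fin (N + 1), if l ≤ N + 1 + (i : ℕ) then
          (((n.choose (N + 1 + (i : ℕ) - l) : ℕ) : 𝕜) * ((n : 𝕜)⁻¹) ^ (N + 1 + (i : ℕ) - l)) *
            (((n : 𝕜)⁻¹) ^ (l - (N + 1)) * d n i) else 0 := by
      intro n
      rw [map_add, coeff_add, coeff_Td_pow_Cp, coeff_Td_pow N n P hP]
      have h2 : ∑ j ∈ Finset.range (N + 1), (if l ≤ j then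
          ((n.choose (j - l) : ℕ) : 𝕜) * P.coeff j else 0) = 0 := by
        refine Finset.sum_eq_zero fun j hj => ?_
        have hj' := Finset.mem_range.1 hj
        rw [if_neg (by omega)]
      rw [h2, zero_add]
      refine Finset.sum_congr rfl fun i _ => ?_
      split_ifs with hli
      · have h3 : (i : ℕ) = (N + 1 + (i : ℕ) - l) + (l - (N + 1)) := by omega
        simp only [c]
        conv_lhs => rw [h3]
        rw [pow_add]
        have h4 : N + 1 + (N + 1 + (i : ℕ) - l + (l - (N + 1))) - l = N + 1 + (i : ℕ) - l := by omega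
        rw [h4]
        ring
      · rfl
    simp_rw [h1]
    refine tendsto_sum_zero _ _ fun i _ => ?_
    split_ifs with hli
    · have h4 := (tendsto_inv_nat (𝕜 := 𝕜)).pow (l - (N + 1))
      have h5 := h4.mul ((tendsto_pi_nhds.1 hd) i)
      rw [Pi.zero_apply, mul_zero] at h5
      have h6 := (tendsto_choose (𝕜 := 𝕜) (N + 1 + (i : ℕ) - l)).mul h5
      rwa [mul_zero] at h6
    · exact tendsto_const_nhds

end Pool.Agent.X109.HU
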