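import Mathlib

set_option autoImplicit false

/-!
# The locally convex direct sum
-/

namespace Pool.Agent.X109.HU

open Topology DirectSum

universe u v

set_option linter.unusedVariables false in
/-- The algebraic direct sum of the spaces `X n`, as a type of its own (which carries the topology
below). -/
def LCSum (𝕜 : Type) (X : ℕ → Type u) [∀ n, NormedAddCommGroup (X n)] : Type u := ⨁ n, X n

section Defs

variable (𝕜 : Type) [RCLike 𝕜] (X : ℕ → Type u) [∀ n, NormedAddCommGroup (X n)]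

noncomputable instance : AddCommGroup (LCSum 𝕜 X) := inferInstanceAs (AddCommGroup (⨁ n, X n))

noncomputable instance {R : Type} [Semiring R] [∀ n, Module R (X n)] : Module R (LCSum 𝕜 X) :=
  inferInstanceAs (Module R (⨁ n, X n))

instance [∀ n, NormedSpace ℝ (X n)] [∀ n, NormedSpace 𝕜 (X n)] [∀ n, IsScalarTower ℝ 𝕜 (X n)] :
    IsScalarTower ℝ 𝕜 (LCSum 𝕜 X) where
  smul_assoc a b x := by
    refine DFinsupp.ext (β := X) fun n => ?_
    exact smul_assoc a b ((show Π₀ n, X n from x) n)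

/-- The inclusion of the `n`-th summand. -/
noncomputable def incl [∀ n, NormedSpace 𝕜 (X n)] (n : ℕ) : X n →ₗ[𝕜] LCSum 𝕜 X :=
  DirectSum.lof 𝕜 ℕ X n

/-- The locally convex vector space topologies on the direct sum for which all the inclusions are
continuous. -/
def lcTop [∀ n, NormedSpace ℝ (X n)] [∀ n, NormedSpace 𝕜 (X n)] :
    Set (TopologicalSpace (LCSum 𝕜 X)) :=
  {t | @IsTopologicalAddGroup (LCSum 𝕜 X) t _ ∧ @ContinuousSMul 𝕜 (LCSum 𝕜 X) _ _ t ∧
    @LocallyConvexSpace ℝ (LCSum 𝕜 X) _ _ _ _ t ∧ ∀ n, Continuous[_, t] (incl 𝕜 X n)}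

/-- The topology of the locally convex direct sum: the finest locally convex vector space topology
for which all the inclusions are continuous. -/
instance [∀ n, NormedSpace ℝ (X n)] [∀ n, NormedSpace 𝕜 (X n)] : TopologicalSpace (LCSum 𝕜 X) :=
  sInf (lcTop 𝕜 X)

end Defs

section Props

variable {𝕜 : Type} [RCLike 𝕜] {X : ℕ → Type u} [∀ n, NormedAddCommGroup (X n)]
  [∀ n, NormedSpace ℝ (X n)] [∀ n, NormedSpace 𝕜 (X n)]

instance : IsTopologicalAddGroup (LCSum 𝕜 X) :=
  topologicalAddGroup_sInf fun _ ht => ht.1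

instance : ContinuousSMul 𝕜 (LCSum 𝕜 X) :=
  continuousSMul_sInf fun _ ht => ht.2.1

instance : LocallyConvexSpace ℝ (LCSum 𝕜 X) :=
  LocallyConvexSpace.sInf fun _ ht => ht.2.2.1

theorem continuous_incl (n : ℕ) : Continuous (incl 𝕜 X n) :=
  continuous_sInf_rng.2 fun _ ht => ht.2.2.2 n

/-- The linear map given by linear maps on the summands. -/
noncomputable def toLin {Y : Type v} [AddCommGroup Y] [Module 𝕜 Y] (f : ∀ n, X n →ₗ[𝕜] Y) :
    LCSum 𝕜 X →ₗ[𝕜] Y :=
  DirectSum.toModule 𝕜 ℕ Y f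

omit [∀ n, NormedSpace ℝ (X n)] in
theorem toLin_incl {Y : Type v} [AddCommGroup Y] [Module 𝕜 Y] (f : ∀ n, X n →ₗ[𝕜] Y) (n : ℕ)
    (x : X n) : toLin f (incl 𝕜 X n x) = f n x :=
  DirectSum.toModule_lof 𝕜 n x

omit [∀ n, NormedSpace ℝ (X n)] in
theorem lc_induction {p : LCSum 𝕜 X → Prop} (h0 : p 0) (hi : ∀ n x, p (incl 𝕜 X n x))
    (ha : ∀ x y, p x → p y → p (x + y)) (x : LCSum 𝕜 X) : p x := by
  refine DirectSum.induction_on (motive := fun y : (⨁ n, X n) => p y) x h0 (fun n y => hi n y) ?_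
  intro y z hy hz
  exact ha y z hy hz

theorem continuous_out [∀ n, IsScalarTower ℝ 𝕜 (X n)] {Y : Type v} [AddCommGroup Y] [Module 𝕜 Y]
    [Module ℝ Y] [IsScalarTower ℝ 𝕜 Y] [TopologicalSpace Y] [IsTopologicalAddGroup Y]
    [ContinuousSMul 𝕜 Y] [LocallyConvexSpace ℝ Y] (f : LCSum 𝕜 X →ₗ[𝕜] Y)
    (hf : ∀ n, Continuous fun x => f (incl 𝕜 X n x)) : Continuous f := by
  have hmem : TopologicalSpace.induced f ‹_› ∈ lcTop 𝕜 X :=
    ⟨topologicalAddGroup_induced f, continuousSMul_induced f,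
      LocallyConvexSpace.induced (f.restrictScalars ℝ), fun n => continuous_induced_rng.2 (hf n)⟩
  exact continuous_sInf_dom hmem continuous_induced_dom

/-- The projection to a summand. -/
noncomputable def prj (n : ℕ) : LCSum 𝕜 X →ₗ[𝕜] X n := DirectSum.component 𝕜 ℕ X n

omit [∀ n, NormedSpace ℝ (X n)] in
theorem prj_incl_self (n : ℕ) (x : X n) : prj (𝕜 := 𝕜) n (incl 𝕜 X n x) = x :=
  DirectSum.component.lof_self 𝕜 n x

omit [∀ n, NormedSpace ℝ (X n)] in
theorem prj_incl_ne {n m : ℕ} (h : n ≠ m) (x : X n) : prj (𝕜 := 𝕜) m (incl 𝕜 X n x) = 0 := by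
  refine (DirectSum.component.of 𝕜 m n x).trans ?_
  rw [dif_neg h]

theorem continuous_prj [∀ n, IsScalarTower ℝ 𝕜 (X n)] (m : ℕ) :
    Continuous (prj (𝕜 := 𝕜) (X := X) m) := by
  refine continuous_out _ fun n => ?_
  by_cases h : n = m
  · subst h
    simp_rw [prj_incl_self]
    exact continuous_id
  · simp_rw [prj_incl_ne h]
    exact continuous_const

instance [∀ n, IsScalarTower ℝ 𝕜 (X n)] : T2Space (LCSum 𝕜 X) := by
  refine ⟨fun x y hxy => ?_⟩
  have : ∃ m, prj (𝕜 := 𝕜) m x ≠ prj m y := by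
    by_contra hcon
    push Not at hcon
    exact hxy (DirectSum.ext_component 𝕜 hcon)
  obtain ⟨m, hm⟩ := this
  obtain ⟨U, V, hU, hV, hxU, hyV, hd⟩ := t2_separation hm
  exact ⟨prj m ⁻¹' U, prj m ⁻¹' V, hU.preimage (continuous_prj m), hV.preimage (continuous_prj m),
    hxU, hyV, hd.preimage _⟩

/-- The topology of the direct sum induces the norm topology on every summand. -/
theorem isEmbedding_incl [∀ n, IsScalarTower ℝ 𝕜 (X n)] (n : ℕ) : IsEmbedding (incl 𝕜 X n) :=
  IsEmbedding.of_leftInverse (f := prj (𝕜 := 𝕜) n) (prj_incl_self n) (continuous_prj n)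
    (continuous_incl n)

end Props

end Pool.Agent.X109.HU
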