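import Pool.Agent.X109.HU.Core
import Pool.Agent.X109.HU.Sum
import Pool.Agent.X109.HU.Bio

set_option autoImplicit false
set_option linter.unusedSectionVars false

/-!
# The operator on the locally convex direct sum
-/

namespace Pool.Agent.X109.HU

open Topology Filter

universe u

variable {𝕜 : Type} [RCLike 𝕜] {X : ℕ → Type u} [∀ n, NormedAddCommGroup (X n)]
  [∀ n, NormedSpace ℝ (X n)] [∀ n, NormedSpace 𝕜 (X n)]

section Op

variable (e : ∀ n, ℕ → X n) (f : ∀ n, ℕ → StrongDual 𝕜 (X n))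

/-- The weights. -/
noncomputable def wr (j : ℕ) : ℝ :=
  (1 / 2 : ℝ) ^ j * ((1 + ‖f (sg (j + 1)) (kp (j + 1))‖)⁻¹ * (1 + ‖e (sg j) (kp j)‖)⁻¹)

theorem wr_pos (j : ℕ) : 0 < wr e f j := by
  unfold wr
  positivity

/-- The pieces of the operator from `X n` to `X m`. -/
noncomputable def Aop (n m j : ℕ) : X n →L[𝕜] X m :=
  if sg (j + 1) = n ∧ sg j = m then
    ((wr e f j : ℝ) : 𝕜) • (f n (kp (j + 1))).smulRight (e m (kp j)) else 0

theorem norm_Aop_le (n m j : ℕ) : ‖Aop e f n m j‖ ≤ (1 / 2 : ℝ) ^ j := by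
  unfold Aop
  split_ifs with h
  · obtain ⟨rfl, rfl⟩ := h
    rw [norm_smul, ContinuousLinearMap.norm_smulRight_apply, RCLike.norm_ofReal,
      abs_of_pos (wr_pos e f j)]
    unfold wr
    have h1 : (1 + ‖f (sg (j + 1)) (kp (j + 1))‖)⁻¹ * ‖f (sg (j + 1)) (kp (j + 1))‖ ≤ 1 := by
      rw [inv_mul_le_iff₀ (by positivity)]
      linarith
    have h2 : (1 + ‖e (sg j) (kp j)‖)⁻¹ * ‖e (sg j) (kp j)‖ ≤ 1 := by
      rw [inv_mul_le_iff₀ (by positivity)]
      linarith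
    have h3 : (1 / 2 : ℝ) ^ j * ((1 + ‖f (sg (j + 1)) (kp (j + 1))‖)⁻¹ * (1 + ‖e (sg j) (kp j)‖)⁻¹) *
        (‖f (sg (j + 1)) (kp (j + 1))‖ * ‖e (sg j) (kp j)‖) = (1 / 2 : ℝ) ^ j *
        (((1 + ‖f (sg (j + 1)) (kp (j + 1))‖)⁻¹ * ‖f (sg (j + 1)) (kp (j + 1))‖) *
        ((1 + ‖e (sg j) (kp j)‖)⁻¹ * ‖e (sg j) (kp j)‖)) := by ring
    rw [h3]
    refine mul_le_of_le_one_right (by positivity) ?_
    exact mul_le_one₀ h1 (by positivity) h2
  · simp

variable [∀ n, CompleteSpace (X n)]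

theorem summable_Aop (n m : ℕ) : Summable (Aop e f n m) :=
  Summable.of_norm_bounded (summable_geometric_of_lt_one (by norm_num) (by norm_num))
    (norm_Aop_le e f n m)

/-- The operator from `X n` to `X m`. -/
noncomputable def Sop (n m : ℕ) : X n →L[𝕜] X m := ∑' j, Aop e f n m j

theorem Sop_apply (n m : ℕ) (x : X n) : Sop e f n m x = ∑' j, Aop e f n m j x :=
  (ContinuousLinearMap.apply 𝕜 (X m) x).map_tsum (summable_Aop e f n m)

variable (h0 : ∀ n i j, i ≠ j → f n i (e n j) = 0) (h1 : ∀ n i, f n i (e n i) = 1)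

include h0 h1

theorem Sop_succ (l m : ℕ) : Sop e f (sg (l + 1)) m (e (sg (l + 1)) (kp (l + 1))) =
    if sg l = m then ((wr e f l : ℝ) : 𝕜) • e m (kp l) else 0 := by
  rw [Sop_apply, tsum_eq_single l]
  · unfold Aop
    by_cases hm : sg l = m
    · rw [if_pos ⟨rfl, hm⟩, if_pos hm]
      simp [h1]
    · rw [if_neg (fun h => hm h.2), if_neg hm]
      rfl
  · intro j hj
    unfold Aop
    split_ifs with h
    · have : kp (j + 1) ≠ kp (l + 1) := by
        intro h2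
        have := sk_inj h.1 h2
        omega
      simp [h0 _ _ _ this]
    · rfl

theorem Sop_zero (m : ℕ) : Sop e f (sg 0) m (e (sg 0) (kp 0)) = 0 := by
  rw [Sop_apply]
  have : ∀ j, Aop e f (sg 0) m j (e (sg 0) (kp 0)) = 0 := by
    intro j
    unfold Aop
    split_ifs with h
    · have : kp (j + 1) ≠ kp 0 := by
        intro h2
        have := sk_inj h.1 h2
        omega
      simp [h0 _ _ _ this]
    · rfl
  simp [this]

omit h0 h1

/-- The operator as a linear map. -/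
noncomputable def Slin : LCSum 𝕜 X →ₗ[𝕜] LCSum 𝕜 X :=
  toLin fun n => ∑ m ∈ Finset.range (n + 2), (incl 𝕜 X m) ∘ₗ (Sop e f n m).toLinearMap

theorem Slin_incl (n : ℕ) (x : X n) : Slin e f (incl 𝕜 X n x) =
    ∑ m ∈ Finset.range (n + 2), incl 𝕜 X m (Sop e f n m x) := by
  rw [Slin, toLin_incl, LinearMap.sum_apply]
  rfl

theorem continuous_Slin [∀ n, IsScalarTower ℝ 𝕜 (X n)] : Continuous (Slin e f) := by
  refine continuous_out _ fun n => ?_
  simp_rw [Slin_incl]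
  refine continuous_finsetSum _ fun m _ => ?_
  exact (continuous_incl m).comp (Sop e f n m).continuous

/-- The basis vector number `j`. -/
noncomputable def Uv (j : ℕ) : LCSum 𝕜 X := incl 𝕜 X (sg j) (e (sg j) (kp j))

include h0 h1

theorem Slin_Uv_zero : Slin e f (Uv (𝕜 := 𝕜) e 0) = 0 := by
  unfold Uv
  rw [Slin_incl]
  refine Finset.sum_eq_zero fun m _ => ?_
  rw [Sop_zero e f h0 h1, map_zero]

theorem Slin_Uv_succ (l : ℕ) : Slin e f (Uv (𝕜 := 𝕜) e (l + 1)) =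
    ((wr e f l : ℝ) : 𝕜) • Uv e l := by
  unfold Uv
  rw [Slin_incl]
  simp_rw [Sop_succ e f h0 h1]
  rw [Finset.sum_eq_single (sg l)]
  · rw [if_pos rfl, map_smul]
  · intro m _ hm
    rw [if_neg (fun h => hm h.symm), map_zero]
  · intro h
    exfalso
    apply h
    rw [Finset.mem_range]
    have := sg_le l
    omega

omit h0 h1

/-- The normalised basis vector number `j`. -/
noncomputable def bv (j : ℕ) : LCSum 𝕜 X :=
  (∏ i ∈ Finset.range j, ((wr e f i : ℝ) : 𝕜))⁻¹ • Uv e j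

theorem prod_ne (j : ℕ) : (∏ i ∈ Finset.range j, ((wr e f i : ℝ) : 𝕜)) ≠ 0 := by
  refine Finset.prod_ne_zero_iff.2 fun i _ => ?_
  exact RCLike.ofReal_ne_zero.2 (wr_pos e f i).ne'

include h0 h1

theorem Slin_bv_zero : Slin e f (bv (𝕜 := 𝕜) e f 0) = 0 := by
  unfold bv
  rw [map_smul, Slin_Uv_zero e f h0 h1, smul_zero]

theorem Slin_bv_succ (l : ℕ) : Slin e f (bv (𝕜 := 𝕜) e f (l + 1)) = bv e f l := by
  unfold bv
  rw [map_smul, Slin_Uv_succ e f h0 h1, smul_smul]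
  congr 1
  rw [Finset.prod_range_succ, mul_inv, mul_assoc, inv_mul_cancel₀, mul_one]
  exact RCLike.ofReal_ne_zero.2 (wr_pos e f l).ne'

omit h0 h1

theorem dense_span_bv (h2 : ∀ n, Dense (Submodule.span 𝕜 (Set.range (e n)) : Set (X n))) :
    Dense (Submodule.span 𝕜 (Set.range (bv (𝕜 := 𝕜) e f)) : Set (LCSum 𝕜 X)) := by
  rw [Submodule.dense_iff_topologicalClosure_eq_top, eq_top_iff]
  intro x _
  have hU : ∀ n k, incl 𝕜 X n (e n k) ∈ Submodule.span 𝕜 (Set.range (bv (𝕜 := 𝕜) e f)) := by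
    intro n k
    obtain ⟨j, rfl, rfl⟩ := sk_surj n k
    have h3 : incl 𝕜 X (sg j) (e (sg j) (kp j)) =
        (∏ i ∈ Finset.range j, ((wr e f i : ℝ) : 𝕜)) • bv e f j := by
      unfold bv
      rw [smul_smul, mul_inv_cancel₀ (prod_ne e f j), one_smul]
      rfl
    rw [h3]
    exact Submodule.smul_mem _ _ (Submodule.subset_span ⟨j, rfl⟩)
  refine lc_induction (p := fun x => x ∈ (Submodule.span 𝕜 (Set.range (bv (𝕜 := 𝕜) e f))).topologicalClosure)
    (Submodule.zero_mem _) ?_ (fun x y hx hy => Submodule.add_mem _ hx hy) x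
  intro n y
  have h3 : (Submodule.span 𝕜 (Set.range (e n))) ≤
      (Submodule.span 𝕜 (Set.range (bv (𝕜 := 𝕜) e f))).comap (incl 𝕜 X n) := by
    rw [Submodule.span_le]
    rintro _ ⟨k, rfl⟩
    exact hU n k
  have h4 : Set.MapsTo (incl 𝕜 X n) (Submodule.span 𝕜 (Set.range (e n)) : Set (X n))
      (Submodule.span 𝕜 (Set.range (bv (𝕜 := 𝕜) e f)) : Set (LCSum 𝕜 X)) := fun z hz => h3 hz
  exact h4.closure (continuous_incl n) (h2 n y)

end Op

/-- `T` is hereditarily hypercyclic: for every infinite set `B` of exponents there is a vector `x`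
such that the vectors `T ^ n x` with `n ∈ B` form a dense set. -/
def HereditarilyHypercyclic {V : Type u} [AddCommGroup V] [Module 𝕜 V] [TopologicalSpace V]
    (T : V →L[𝕜] V) : Prop :=
  ∀ B : Set ℕ, B.Infinite → ∃ x : V, Dense {y : V | ∃ n ∈ B, y = (T ^ n) x}

theorem main [∀ n, IsScalarTower ℝ 𝕜 (X n)] [∀ n, CompleteSpace (X n)]
    [∀ n, TopologicalSpace.SeparableSpace (X n)] (hinf : ∀ n, ¬ FiniteDimensional 𝕜 (X n)) :
    ∃ T : LCSum 𝕜 X →L[𝕜] LCSum 𝕜 X, HereditarilyHypercyclic T := by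
  have hex := fun n => exists_biorth_inf 𝕜 (X n) (hinf n)
  choose e f h0 h1 h2 using hex
  let S : LCSum 𝕜 X →L[𝕜] LCSum 𝕜 X := ⟨Slin e f, continuous_Slin e f⟩
  let ι : X 0 →L[𝕜] LCSum 𝕜 X := ⟨incl 𝕜 X 0, continuous_incl 0⟩
  refine ⟨ContinuousLinearMap.id 𝕜 (LCSum 𝕜 X) + S, fun B hB => ?_⟩
  refine core ι _ (bv e f) ?_ ?_ (dense_span_bv e f h2) ?_ B hB
  · change bv e f 0 + Slin e f (bv e f 0) = bv e f 0
    rw [Slin_bv_zero e f h0 h1, add_zero]
  · intro j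
    change bv e f (j + 1) + Slin e f (bv e f (j + 1)) = bv e f (j + 1) + bv e f j
    rw [Slin_bv_succ e f h0 h1]
  · intro L R0
    obtain ⟨R, hR, hRb⟩ := sg_pat L R0
    refine ⟨R, hR, fun j h3 h4 => ?_⟩
    have h5 := hRb j h3 h4
    have h6 : ∀ n, n = 0 → ∀ x : X n, ∃ y : X 0, incl 𝕜 X 0 y = incl 𝕜 X n x := by
      rintro _ rfl x
      exact ⟨x, rfl⟩
    obtain ⟨y, hy⟩ := h6 _ h5 (e (sg j) (kp j))
    refine ⟨(∏ i ∈ Finset.range j, ((wr e f i : ℝ) : 𝕜))⁻¹ • y, ?_⟩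
    rw [map_smul]
    unfold bv Uv
    rw [← hy]
    rfl

end Pool.Agent.X109.HU
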